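import Pool.Agent.H31.ND.Defs

/-! Corner test: the structures `Var.Divisors`, `Var.Coh`, `Var.Currents`, `Var.Forms` are satisfiable,
by the data of a K3 surface with Picard lattice `U(2)` (two elliptic fibrations). -/

namespace Pool.Agent.H54.ND

open Pool.Agent.H31.ND
open scoped BigOperators

/-- the class of the prime divisor -/
def cz (F : Bool × Bool) : Fin 2 → ℤ := if F.1 then ![1, 0] else ![0, 1]

/-- the surface -/
def num : Num 2 (Bool × Bool) where
  f x y := 2 * (x 0 * y 1 + x 1 * y 0)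
  A := ![1, 1]
  cl F := fun i => (cz F i : ℝ)
  Nef x := 0 ≤ x 0 ∧ 0 ≤ x 1
  Psef x := 0 ≤ x 0 ∧ 0 ≤ x 1
  Mov x := 0 ≤ x 0 ∧ 0 ≤ x 1

def h0 (a b : ℤ) : ℕ :=
  if 0 ≤ a ∧ 0 ≤ b then
    (if a = 0 then (b + 1).toNat else if b = 0 then (a + 1).toNat else (2 * a * b + 2).toNat)
  else 0

def hh (q : ℕ) (x : Fin 2 → ℤ) : ℕ :=
  if q = 0 then h0 (x 0) (x 1) else if q = 2 then h0 (-x 0) (-x 1) else
    if q = 1 then h0 (x 0) (x 1) + h0 (-x 0) (-x 1) - (2 * x 0 * x 1 + 2).toNat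
      + (-(2 * x 0 * x 1 + 2)).toNat
    else 0

/-- `F = (true, i)` is the fibre `i` of the first fibration, `(false, j)` a fibre of the second -/
def on (p F : Bool × Bool) : Prop := (F.1 = true ∧ p.1 = F.2) ∨ (F.1 = false ∧ p.2 = F.2)

def X : Var 2 where
  P := Fin 2 → ℤ
  Pr := Bool × Bool
  Pt := Bool × Bool
  Cv := Bool × Bool
  n := 2
  O := cz
  deg C x := 2 * (cz C 0 * x 1 + cz C 1 * x 0)
  On := on
  In C F := C = F
  h := hh
  c x := x
  num := num

theorem form : num.Form where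
  add x y z := by simp only [num, Pi.add_apply]; ring
  mul t x y := by simp only [num, Pi.smul_apply, smul_eq_mul]; ring
  symm x y := by simp only [num]; ring
  index x h := by
    simp only [num, Matrix.cons_val_zero, Matrix.cons_val_one] at h ⊢
    have h1 : x 1 = - x 0 := by linarith
    rw [h1]
    nlinarith [sq_nonneg (x 0)]
  index_eq x h h' := by
    simp only [num, Matrix.cons_val_zero, Matrix.cons_val_one] at h h'
    have h1 : x 1 = - x 0 := by linarith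
    rw [h1] at h'
    have h2 : x 0 = 0 := by nlinarith [sq_nonneg (x 0)]
    funext i
    fin_cases i
    · exact h2
    · show x 1 = 0
      rw [h1, h2, neg_zero]
  nef_cl x F h := by
    obtain ⟨h0, h1⟩ := h
    rcases F with ⟨a, b⟩
    cases a <;> simp [num, cz] <;> assumption
  nef_nef x y h h' := by
    obtain ⟨h0, h1⟩ := h
    obtain ⟨h2, h3⟩ := h'
    simp only [num]
    positivity
  nef_A := by
    constructor <;> simp [num]

theorem zariski : num.Zariski where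
  nef_psef x y h h' := form.nef_nef x y h h'
  dec x h := ⟨x, 0, h, ⟨0, Fin.elim0, Fin.elim0, fun i => i.elim0, by simp⟩, by simp⟩
  mov_psef x h := h
  mov_sq x h := form.nef_nef x x h h

theorem h0_ne (a b : ℤ) : h0 a b ≠ 0 ↔ 0 ≤ a ∧ 0 ≤ b := by
  rw [h0]
  split_ifs with h1 h2 h3
  · exact ⟨fun _ => h1, fun _ => by omega⟩
  · exact ⟨fun _ => h1, fun _ => by omega⟩
  · refine ⟨fun _ => h1, fun _ => ?_⟩
    have : 0 ≤ a * b := mul_nonneg h1.1 h1.2
    have h4 : 2 * a * b = 2 * (a * b) := by ring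
    omega
  · exact ⟨fun h => absurd rfl h, fun h => absurd h h1⟩

def ln (D : (Bool × Bool) →₀ ℕ) : Fin 2 → ℤ := D.sum fun F k => k • cz F

theorem ln_single (a b : ℕ) :
    ln (Finsupp.single (true, true) a + Finsupp.single (false, true) b) = ![(a : ℤ), (b : ℤ)] := by
  rw [ln, Finsupp.sum_add_index', Finsupp.sum_single_index, Finsupp.sum_single_index]
  · funext i
    fin_cases i <;> simp [cz]
  · exact zero_smul ℕ _
  · exact zero_smul ℕ _
  · intro i
    exact zero_smul ℕ _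
  · intro i k l
    exact add_smul k l _

theorem line_nonneg (D : X.Pr →₀ ℕ) : 0 ≤ (X.line D) 0 ∧ 0 ≤ (X.line D) 1 := by
  have h : ∀ F : X.Pr, 0 ≤ (X.O F) 0 ∧ 0 ≤ (X.O F) 1 := by
    intro F
    show 0 ≤ cz F 0 ∧ 0 ≤ cz F 1
    rcases F with ⟨a, b⟩
    cases a <;> simp [cz]
  rw [Var.line, Finsupp.sum]
  have h2 : ∀ j : Fin 2, (∑ F ∈ D.support, D F • X.O F) j = ∑ F ∈ D.support, D F • (X.O F) j := by
    intro j
    exact Finset.sum_apply _ _ _
  rw [h2, h2]
  exact ⟨Finset.sum_nonneg fun F _ => nsmul_nonneg (h F).1 _,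
    Finset.sum_nonneg fun F _ => nsmul_nonneg (h F).2 _⟩

theorem divisors : X.Divisors where
  form := form
  zariski := zariski
  add_c x y := rfl
  tors x h := ⟨1, one_pos, by rw [one_smul]; exact h⟩
  cl_eq F := rfl
  pos F := by
    show 0 < 2 * ((![1, 1] : Vec 2) 0 * (cz F 1 : ℝ) + (![1, 1] : Vec 2) 1 * (cz F 0 : ℝ))
    rcases F with ⟨a, b⟩
    cases a <;> simp [cz]
  add_deg C x y := by
    show 2 * (cz C 0 * (x 1 + y 1) + cz C 1 * (x 0 + y 0)) = _
    show _ = 2 * (cz C 0 * x 1 + cz C 1 * x 0) + 2 * (cz C 0 * y 1 + cz C 1 * y 0)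
    ring
  nef x := by
    show (∀ C : Bool × Bool, 0 ≤ 2 * (cz C 0 * x 1 + cz C 1 * x 0)) ↔
      (0 ≤ ((x 0 : ℤ) : ℝ) ∧ 0 ≤ ((x 1 : ℤ) : ℝ))
    constructor
    · intro h
      have h1 := h (true, true)
      have h2 := h (false, true)
      simp [cz] at h1 h2
      exact ⟨by exact_mod_cast h2, by exact_mod_cast h1⟩
    · rintro ⟨h1, h2⟩ ⟨a, b⟩
      have h1' : 0 ≤ x 0 := by exact_mod_cast h1
      have h2' : 0 ≤ x 1 := by exact_mod_cast h2
      cases a <;> simp [cz] <;> assumption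
  not_in C F h := by
    show 0 ≤ 2 * (cz C 0 * cz F 1 + cz C 1 * cz F 0)
    rcases C with ⟨a, b⟩
    rcases F with ⟨c, d⟩
    cases a <;> cases c <;> simp [cz]
  cl_cl F F' h := by
    show 0 ≤ 2 * ((cz F 0 : ℝ) * cz F' 1 + cz F 1 * cz F' 0)
    rcases F with ⟨a, b⟩
    rcases F' with ⟨c, d⟩
    cases a <;> cases c <;> simp [cz]
  disj F F' h h' p := by
    have h'' : 2 * ((cz F 0 : ℝ) * cz F' 1 + cz F 1 * cz F' 0) = 0 := h'
    show on p F → ¬ on p F'
    rcases F with ⟨a, b⟩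
    rcases F' with ⟨c, d⟩
    cases a <;> cases c <;> simp [cz] at h'' <;> simp [on]
    · rintro rfl rfl
      exact h rfl
    · rintro rfl rfl
      exact h rfl
  disj_in C F F' h h' h'' := by
    have h3 : 2 * ((cz F 0 : ℝ) * cz F' 1 + cz F 1 * cz F' 0) = 0 := h'
    have h4 : C = F := h''
    rw [h4]
    show 2 * (cz F 0 * cz F' 1 + cz F 1 * cz F' 0) = 0
    exact_mod_cast h3
  sect x := by
    show h0 (x 0) (x 1) ≠ 0 ↔ _
    rw [h0_ne]
    constructor
    · rintro ⟨h1, h2⟩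
      refine ⟨Finsupp.single (true, true) (x 0).toNat + Finsupp.single (false, true) (x 1).toNat, ?_⟩
      refine (ln_single _ _).trans ?_
      funext i
      fin_cases i
      · exact Int.toNat_of_nonneg h1
      · exact Int.toNat_of_nonneg h2
    · rintro ⟨D, rfl⟩
      exact line_nonneg D

theorem chi_eq (x : X.P) : X.chi x = 2 * x 0 * x 1 + 2 := by
  have hx : X.chi x = (h0 (x 0) (x 1) : ℤ) - ((h0 (x 0) (x 1) + h0 (-x 0) (-x 1)
      - (2 * x 0 * x 1 + 2).toNat + (-(2 * x 0 * x 1 + 2)).toNat : ℕ) : ℤ)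
      + (h0 (-x 0) (-x 1) : ℤ) := by
    rw [Var.chi]
    show ∑ q ∈ Finset.range 3, (-1) ^ q * (hh q x : ℤ) = _
    rw [Finset.sum_range_succ, Finset.sum_range_succ, Finset.sum_range_one]
    simp only [hh]
    norm_num
    ring
  rw [hx]
  obtain ⟨a, ha⟩ : ∃ a, a = x 0 := ⟨_, rfl⟩
  obtain ⟨b, hb⟩ : ∃ b, b = x 1 := ⟨_, rfl⟩
  rw [← ha, ← hb]
  have key : ((2 * a * b + 2).toNat : ℤ) ≤ (h0 a b : ℤ) + h0 (-a) (-b) := by
    obtain ⟨m, hm⟩ : ∃ m, m = a * b := ⟨_, rfl⟩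
    have h4 : 2 * a * b = 2 * m := by rw [hm]; ring
    have h5 : 2 * -a * -b = 2 * m := by rw [hm]; ring
    rw [h0, h0, h4, h5]
    rcases lt_trichotomy a 0 with h1 | h1 | h1 <;> rcases lt_trichotomy b 0 with h2 | h2 | h2
    all_goals first
      | (have h3 : 0 < m := by rw [hm]; nlinarith)
      | (have h3 : m < 0 := by rw [hm]; nlinarith)
      | (have h3 : m = 0 := by rw [hm]; nlinarith)
    all_goals split_ifs <;> omega
  omega

theorem coh : X.Coh where
  snapper x := by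
    refine ⟨Polynomial.C (2 * (x 0 : ℚ) * x 1) * Polynomial.X ^ 2 + Polynomial.C 2, fun m => ?_⟩
    rw [chi_eq]
    simp only [Polynomial.eval_add, Polynomial.eval_mul, Polynomial.eval_C, Polynomial.eval_pow,
      Polynomial.eval_X]
    show ((2 * (m * x 0) * (m * x 1) + 2 : ℤ) : ℚ) = _
    push_cast
    ring

/-- the blow up of a point: the coefficient of the exceptional divisor comes last -/
noncomputable def bl (p : Bool × Bool) : Num 3 (Option (Bool × Bool)) := by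
  classical
  exact
  { f := fun x y => 2 * (x 0 * y 1 + x 1 * y 0) - x 2 * y 2
    A := ![2, 2, -1]
    cl := fun F => match F with
      | none => ![0, 0, 1]
      | some F => ![(cz F 0 : ℝ), (cz F 1 : ℝ), if on p F then -1 else 0]
    Nef := fun x => x 2 ≤ 0 ∧ 0 ≤ 2 * x 1 + x 2 ∧ 0 ≤ 2 * x 0 + x 2
    Psef := fun x => 0 ≤ x 0 ∧ 0 ≤ x 1 ∧ 0 ≤ x 0 + x 1 + x 2
    Mov := fun x => x 2 ≤ 0 ∧ 0 ≤ 2 * x 1 + x 2 ∧ 0 ≤ 2 * x 0 + x 2 }

theorem bl_f (p : Bool × Bool) (x y : Vec 3) :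
    (bl p).f x y = 2 * (x 0 * y 1 + x 1 * y 0) - x 2 * y 2 := rfl

theorem bl_A (p : Bool × Bool) : (bl p).A = ![2, 2, -1] := rfl

theorem bl_none (p : Bool × Bool) : (bl p).cl none = ![0, 0, 1] := rfl

theorem bl_some (p F : Bool × Bool) : ∃ e : ℝ, (e = -1 ∨ e = 0) ∧ (on p F → e = -1) ∧
    (bl p).cl (some F) = ![(cz F 0 : ℝ), (cz F 1 : ℝ), e] := by
  classical
  refine ⟨if on p F then -1 else 0, ?_, fun h => if_pos h, rfl⟩
  by_cases h : on p F
  · exact Or.inl (if_pos h)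
  · exact Or.inr (if_neg h)

theorem blform (p : Bool × Bool) : (bl p).Form where
  add x y z := by simp only [bl_f, Pi.add_apply]; ring
  mul t x y := by simp only [bl_f, Pi.smul_apply, smul_eq_mul]; ring
  symm x y := by simp only [bl_f]; ring
  index x h := by
    simp [bl_f, bl_A] at h
    have h1 : x 2 = -(4 * (x 0 + x 1)) := by linarith
    rw [bl_f, h1]
    nlinarith [sq_nonneg (x 0 + x 1), sq_nonneg (x 0), sq_nonneg (x 1)]
  index_eq x h h' := by
    simp [bl_f, bl_A] at h h'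
    have h1 : x 2 = -(4 * (x 0 + x 1)) := by linarith
    rw [h1] at h'
    have h2 : x 0 = 0 := by nlinarith [sq_nonneg (x 0 + x 1), sq_nonneg (x 0), sq_nonneg (x 1)]
    have h3 : x 1 = 0 := by nlinarith [sq_nonneg (x 0 + x 1), sq_nonneg (x 0), sq_nonneg (x 1)]
    funext i
    fin_cases i
    · exact h2
    · exact h3
    · show x 2 = 0
      rw [h1, h2, h3]
      norm_num
  nef_cl x F h := by
    obtain ⟨h1, h2, h3⟩ := h
    rcases F with _ | F
    · rw [bl_none, bl_f]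
      simp
      exact h1
    · obtain ⟨e, he, -, hF⟩ := bl_some p F
      rw [hF, bl_f]
      rcases F with ⟨a, b⟩
      rcases he with rfl | rfl <;> cases a <;> simp [cz] <;> linarith
  nef_nef x y h h' := by
    obtain ⟨h1, h2, h3⟩ := h
    obtain ⟨h1', h2', h3'⟩ := h'
    rw [bl_f]
    nlinarith [mul_nonneg (neg_nonneg.2 h1) h3', mul_nonneg (neg_nonneg.2 h1) h2',
      mul_nonneg h2 (by linarith : 0 ≤ y 0), mul_nonneg h3 (by linarith : 0 ≤ y 1),
      mul_nonneg (neg_nonneg.2 h1) (neg_nonneg.2 h1')]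
  nef_A := by
    rw [bl_A]
    show (-1 : ℝ) ≤ 0 ∧ 0 ≤ 2 * (2 : ℝ) + -1 ∧ 0 ≤ 2 * (2 : ℝ) + -1
    norm_num

theorem blzariski (p : Bool × Bool) : (bl p).Zariski where
  nef_psef x y h h' := by
    obtain ⟨h1, h2, h3⟩ := h
    obtain ⟨h1', h2', h3'⟩ := h'
    rw [bl_f]
    nlinarith [mul_nonneg (neg_nonneg.2 h1) h3', mul_nonneg h2 h1', mul_nonneg h3 h2']
  dec x h := by
    obtain ⟨h1, h2, h3⟩ := h
    refine ⟨0, x, ⟨le_refl _, by simp, by simp⟩, ?_, by simp⟩
    refine ⟨3, ![none, some (true, p.1), some (false, p.2)], ![x 0 + x 1 + x 2, x 0, x 1], ?_, ?_⟩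
    · intro i
      fin_cases i <;> simp <;> assumption
    · obtain ⟨e1, -, he1, hF1⟩ := bl_some p (true, p.1)
      obtain ⟨e2, -, he2, hF2⟩ := bl_some p (false, p.2)
      have he1 := he1 (Or.inl ⟨rfl, rfl⟩)
      have he2 := he2 (Or.inr ⟨rfl, rfl⟩)
      rw [Fin.sum_univ_three]
      simp only [Matrix.cons_val_zero, Matrix.cons_val_one, Matrix.cons_val_two, Matrix.head_cons,
        Matrix.tail_cons]
      rw [bl_none, hF1, hF2, he1, he2]
      funext i
      fin_cases i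
      · simp [cz]
      · simp [cz]
      · simp [cz]
        ring
  mov_psef x h := by
    obtain ⟨h1, h2, h3⟩ := h
    exact ⟨by linarith, by linarith, by linarith⟩
  mov_sq x h := (blform p).nef_nef x x h h

theorem push_none (p : Bool × Bool) : (![(bl p).cl none 0, (bl p).cl none 1] : Vec 2) = 0 := by
  rw [bl_none]
  funext i
  fin_cases i <;> simp

theorem push_some (p F : Bool × Bool) :
    (![(bl p).cl (some F) 0, (bl p).cl (some F) 1] : Vec 2) = num.cl F := by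
  obtain ⟨e, -, -, hF⟩ := bl_some p F
  rw [hF]
  funext i
  fin_cases i <;> simp [num]

theorem none_pos (p : Bool × Bool) : 0 < (bl p).f (bl p).A ((bl p).cl none) := by
  rw [bl_none, bl_A, bl_f]
  simp

noncomputable def currents : X.Currents where
  Cur x := PLift (X.Nef x)
  nu _ _ _ := 0
  nu_nonneg _ _ _ := le_refl _
  exist x h := ⟨⟨h⟩⟩
  bl := bl
  pull _ x := ![x 0, x 1, 0]
  push _ x := ![x 0, x 1]
  form := blform
  zariski := blzariski
  push_add p x y := by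
    funext i
    fin_cases i <;> simp
  push_mul p t x := by
    funext i
    fin_cases i <;> simp
  push_pull p x := by
    funext i
    fin_cases i <;> simp
  push_none p := push_none p
  push_some p F := push_some p F
  none_pos p := none_pos p
  pull_nef p x h := by
    have h1 := (divisors.nef x).1 h
    obtain ⟨h2, h3⟩ := h1
    have h2' : 0 ≤ X.rl x 0 := h2
    have h3' : 0 ≤ X.rl x 1 := h3
    refine ⟨le_refl _, ?_, ?_⟩
    · show 0 ≤ 2 * X.rl x 1 + 0
      linarith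
    · show 0 ≤ 2 * X.rl x 0 + 0
      linarith
  pull_one p x _ h := by
    have h1 : 2 * (X.rl x 0 * X.rl x 1 + X.rl x 1 * X.rl x 0) = 0 := h
    rw [bl_f]
    show 2 * (X.rl x 0 * X.rl x 1 + X.rl x 1 * X.rl x 0) - 0 * 0 = 0
    rw [h1]
    norm_num
  siu p x T := by
    obtain ⟨h2, h3⟩ := (divisors.nef x).1 T.down
    have h2' : 0 ≤ X.rl x 0 := h2
    have h3' : 0 ≤ X.rl x 1 := h3
    rw [zero_smul, sub_zero]
    refine ⟨h2', h3', ?_⟩
    show 0 ≤ X.rl x 0 + X.rl x 1 + 0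
    linarith

noncomputable def forms (L : X.P) (hL : X.Nef L) : X.Forms currents L where
  K := ℚ
  sec _ _ _ := True
  sub _ _ := 0
  quo _ _ := 0
  add _ _ := add_zero _
  cp _ _ := by
    show 0 ≤ (((0 : Fin 2 → ℤ) 0 : ℤ) : ℝ) ∧ 0 ≤ (((0 : Fin 2 → ℤ) 1 : ℤ) : ℝ)
    simp
  wedge p k v m _ _ := by
    rw [add_zero]
    obtain ⟨h2, h3⟩ := (divisors.nef L).1 hL
    have h2' : (0 : ℝ) ≤ ((L 0 : ℤ) : ℝ) := h2
    have h3' : (0 : ℝ) ≤ ((L 1 : ℤ) : ℝ) := h3
    have h4 : 0 ≤ L 0 := by exact_mod_cast h2'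
    have h5 : 0 ≤ L 1 := by exact_mod_cast h3'
    show h0 (((∑ i, m i) • L) 0) (((∑ i, m i) • L) 1) ≠ 0
    rw [h0_ne]
    exact ⟨nsmul_nonneg h4 _, nsmul_nonneg h5 _⟩
  dps _ _ q m hq _ _ := by
    refine ⟨fun _ => 1, ?_, trivial⟩
    intro h
    have h1 : 0 < Nat.choose X.n (X.n - q) := Nat.choose_pos (Nat.sub_le _ _)
    exact one_ne_zero (congrFun h ⟨0, h1⟩)

/-- the class of a fibre has square zero and is not numerically trivial: the test is not vacuous -/
theorem one_fibre : X.One (![1, 0] : Fin 2 → ℤ) ∧ X.Nef (![1, 0] : Fin 2 → ℤ) := by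
  constructor
  · show 2 * ((((![1, 0] : Fin 2 → ℤ) 0 : ℤ) : ℝ) * (((![1, 0] : Fin 2 → ℤ) 1 : ℤ) : ℝ) +
      (((![1, 0] : Fin 2 → ℤ) 1 : ℤ) : ℝ) * (((![1, 0] : Fin 2 → ℤ) 0 : ℤ) : ℝ)) = 0
    simp
  · rw [divisors.nef]
    show 0 ≤ (((![1, 0] : Fin 2 → ℤ) 0 : ℤ) : ℝ) ∧ 0 ≤ (((![1, 0] : Fin 2 → ℤ) 1 : ℤ) : ℝ)
    simp

end Pool.Agent.H54.ND
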